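import Pool.Agent.H70.GSC.Targets

/-!
Row FNL of the board gsc: the final inequality.
-/

set_option autoImplicit false

open Finset Pool.Agent.H6.N4D Pool.Agent.H93 Pool.Agent.H93.GS

namespace Pool.Agent.H67.GSC

open Pool.Agent.H70.GSC

theorem fnl_a (B T : ℝ) : 14 * (B * T) ≤ B ^ 2 / 32 + 1568 * T ^ 2 := by
  nlinarith [sq_nonneg (B - 224 * T)]

theorem fnl_b (x y R : ℝ) (hx : 0 < x) (hR : 0 < R) : 14 * y ≤ x / R + 49 * R * y ^ 2 / x := by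
  have h : x / R + 49 * R * y ^ 2 / x - 14 * y = (x - 7 * R * y) ^ 2 / (x * R) := by
    field_simp
    ring
  have h2 : 0 ≤ (x - 7 * R * y) ^ 2 / (x * R) := by positivity
  linarith

theorem pf_FNL : T_FNL := by
  intro κ' Bm r₀ hκ hBm
  have hR : (0 : ℝ) < (r₀ : ℝ) + 1 := by positivity
  refine ⟨1568 + 49 * (r₀ + 1) * Bm ^ 2 / κ' ^ 2, by positivity, ?_⟩
  intro r σ D B T hr hσ hD hBT hDB
  have hT2 : 0 ≤ ∑ i ∈ range r, T i ^ 2 := Finset.sum_nonneg fun i _ => sq_nonneg _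
  have hM : 0 ≤ 49 * ((r₀ : ℝ) + 1) * Bm ^ 2 / κ' ^ 2 := by positivity
  rcases le_or_gt σ κ' with h | h
  · have h1 : 14 * ∑ i ∈ range r, B i * T i ≤
        (∑ i ∈ range r, B i ^ 2) / 32 + 1568 * ∑ i ∈ range r, T i ^ 2 := by
      rw [Finset.mul_sum, Finset.mul_sum, Finset.sum_div, ← Finset.sum_add_distrib]
      exact Finset.sum_le_sum fun i _ => fnl_a (B i) (T i)
    have h2 : σ ^ 2 ≤ 5 / 4 * κ' * σ := by nlinarith
    have h3 := mul_nonneg hM hT2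
    nlinarith
  · have h1 : 14 * ∑ i ∈ range r, B i * T i ≤
        κ' ^ 2 + 49 * ((r₀ : ℝ) + 1) * Bm ^ 2 / κ' ^ 2 * ∑ i ∈ range r, T i ^ 2 := by
      have h2 : ∀ i ∈ range r, 14 * (B i * T i) ≤
          κ' ^ 2 / (r₀ + 1) + 49 * ((r₀ : ℝ) + 1) * Bm ^ 2 / κ' ^ 2 * T i ^ 2 := by
        intro i hi
        obtain ⟨b0, b1, b2⟩ := hBT i (Finset.mem_range.1 hi)
        have h3 := fnl_b (κ' ^ 2) (Bm * T i) (r₀ + 1) (by positivity) hR
        have h4 : B i * T i ≤ Bm * T i := mul_le_mul_of_nonneg_right b1 b2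
        have h5 : 49 * ((r₀ : ℝ) + 1) * (Bm * T i) ^ 2 / κ' ^ 2 =
            49 * ((r₀ : ℝ) + 1) * Bm ^ 2 / κ' ^ 2 * T i ^ 2 := by ring
        rw [h5] at h3
        linarith
      have h3 := Finset.sum_le_sum h2
      rw [← Finset.mul_sum, Finset.sum_add_distrib, ← Finset.mul_sum, Finset.sum_const,
        Finset.card_range, nsmul_eq_mul] at h3
      have h4 : (r : ℝ) * (κ' ^ 2 / (r₀ + 1)) ≤ κ' ^ 2 := by
        have h5 : (r : ℝ) ≤ (r₀ : ℝ) + 1 := by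
          have : (r : ℝ) ≤ r₀ := by exact_mod_cast hr
          linarith
        calc (r : ℝ) * (κ' ^ 2 / (r₀ + 1)) ≤ ((r₀ : ℝ) + 1) * (κ' ^ 2 / (r₀ + 1)) :=
              mul_le_mul_of_nonneg_right h5 (by positivity)
          _ = κ' ^ 2 := by field_simp
      linarith
    have h2 : κ' ^ 2 ≤ 5 / 4 * κ' * σ := by nlinarith
    nlinarith

end Pool.Agent.H67.GSC
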