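import Pool.Agent.H70.GSC.Targets
import Pool.Agent.H6.GS2.Bas

/-!
Row LDG of the board gsc: the difference of two linear terms.
-/

set_option autoImplicit false

open Finset Pool.Agent.H6.N4D Pool.Agent.H93 Pool.Agent.H93.GS

namespace Pool.Agent.H67.GSC

open Pool.Agent.H70.GSC

theorem ldg_one (n N : ℕ) : (Ioc n (n + N)).filter (fun m => 1 ∣ m) = Ioc n (n + N) :=
  Finset.filter_true_of_mem fun m _ => one_dvd m

theorem ldg_ar (q N n : ℕ) (F : ℕ → ℝ) :
    ar q N n F - ar 1 N n F = ar 1 N n (fun m => EB.D q m * F m) := by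
  unfold ar
  rw [ldg_one]
  have h : ∑ m ∈ Ioc n (n + N), EB.D q m * F m =
      (∑ m ∈ (Ioc n (n + N)).filter (fun m => q ∣ m), F m) * q - ∑ m ∈ Ioc n (n + N), F m := by
    rw [Finset.sum_filter, Finset.sum_mul, ← Finset.sum_sub_distrib]
    refine Finset.sum_congr rfl fun m _ => ?_
    unfold EB.D
    split_ifs <;> ring
  rw [h]
  push_cast
  ring

theorem ldg_lin (lam : ℕ → ℝ) (q N n : ℕ) (h g : Ex) :
    lin lam q N n h - lin lam q N n g = 2 * (ac 1 N n (fun m => (EB.D q m : ℂ) * lam m *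
      (starRingEnd ℂ) (h.f m - g.f m))).re := by
  unfold lin
  rw [ldg_ar, ldg_ar, H6.GS2.ac_re, ← mul_sub, ← H6.GS2.ar_sub]
  refine congrArg (fun x => 2 * x) (H6.GS2.ar_congr 1 N n fun m _ _ => ?_)
  have h1 : ((EB.D q m : ℂ) * lam m * (starRingEnd ℂ) (h.f m - g.f m)).re =
      (EB.D q m * lam m) * (h.f m - g.f m).re := by
    rw [← Complex.ofReal_mul, Complex.re_ofReal_mul, Complex.conj_re]
  rw [h1, Complex.sub_re]
  ring

theorem ldg_zz (lam : ℕ → ℝ) (q N n : ℕ) (b : ℝ) (c : ℂ) :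
    ‖ac 1 N n (fun m => (EB.D q m : ℂ) * lam m * (starRingEnd ℂ) (c * ee (b * m)))‖ =
      ‖c‖ * EB.zz lam q N n b (fun _ => 1) := by
  have h : ac 1 N n (fun m => (EB.D q m : ℂ) * lam m * (starRingEnd ℂ) (c * ee (b * m))) =
      (starRingEnd ℂ) c * ac 1 N n (fun m => (lam m : ℂ) * (EB.D q m : ℂ) * ee (-(b * m)) * 1) := by
    rw [← H6.GS2.ac_mul]
    refine H6.GS2.ac_congr 1 N n fun m _ _ => ?_
    rw [map_mul, H6.GS2.conj_ee]
    ring
  rw [h, norm_mul, Complex.norm_conj]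
  unfold ac EB.zz
  rw [ldg_one, Nat.cast_one, mul_one]

theorem pf_LDG (hB : H6.GS2.T_BVT) (hZ : T_ZSH) : T_LDG := by
  intro lam q N n r S c C G b γ s h g hl hq hqN hh hg
  have hz0 := (hZ lam q N n hl hq hqN).2.1
  rw [ldg_lin]
  have h1 : ac 1 N n (fun m => (EB.D q m : ℂ) * lam m * (starRingEnd ℂ) (h.f m - g.f m)) =
      ∑ j ∈ S, ac 1 N n (fun m => (EB.D q m : ℂ) * lam m * (starRingEnd ℂ) (c j * ee (b j * m))) +
      ∑ i ∈ range r, ac 1 N n (fun m => (EB.D q m : ℂ) * lam m *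
        (starRingEnd ℂ) (C i * ee ((γ i + s i / N) * m) - G i * ee (γ i * m))) := by
    rw [← H6.GS2.ac_sum, ← H6.GS2.ac_sum, ← H6.GS2.ac_add]
    refine H6.GS2.ac_congr 1 N n fun m _ _ => ?_
    rw [hh m, hg m, ← Finset.mul_sum, ← Finset.mul_sum, ← mul_add, ← map_sum, ← map_sum,
      ← map_add]
    unfold sg
    rw [Finset.sum_sub_distrib]
    refine congrArg (fun x => (EB.D q m : ℂ) * lam m * (starRingEnd ℂ) x) ?_
    ring
  have h2 : ‖ac 1 N n (fun m => (EB.D q m : ℂ) * lam m *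
      (starRingEnd ℂ) (h.f m - g.f m))‖ ≤
      ∑ j ∈ S, ‖c j‖ * EB.zz lam q N n (b j) (fun _ => 1) +
        7 * ∑ i ∈ range r, gz N n (C i) (G i) (s i) * zA lam q N n (γ i) := by
    rw [h1]
    refine (norm_add_le _ _).trans (add_le_add ?_ ?_)
    · refine (norm_sum_le _ _).trans (le_of_eq ?_)
      exact Finset.sum_congr rfl fun j _ => ldg_zz lam q N n (b j) (c j)
    · refine (norm_sum_le _ _).trans ?_
      rw [Finset.mul_sum]
      refine Finset.sum_le_sum fun i _ => ?_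
      refine (hB lam q N n (γ i) (s i) (C i) (G i) hl hq hqN).trans ?_
      rw [← mul_assoc]
      refine mul_le_mul_of_nonneg_right ?_ (hz0 (γ i))
      unfold gz
      have h3 := norm_nonneg (H6.GS2.ctr N n (C i) (s i) - G i)
      linarith
  have h3 := Complex.abs_re_le_norm (ac 1 N n (fun m => (EB.D q m : ℂ) * lam m *
      (starRingEnd ℂ) (h.f m - g.f m)))
  rw [abs_mul, abs_of_pos (by norm_num : (0 : ℝ) < 2)]
  linarith

end Pool.Agent.H67.GSC
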